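import Pool.Agent.T2h17.CM.Grp
import Pool.Agent.Y119.HA.One

/-!
All relations of bounded degree over number fields of bounded degree between the entries of a matrix
of G-functions at an algebraic point near the origin hold on the orbit of the isometry group.
-/

set_option autoImplicit false
set_option maxHeartbeats 400000

open Matrix PowerSeries

namespace Pool.Agent.T2h17.CM

open Pool.Agent.Y118.CM (Pc)
open Pool.Agent.Y916.Al (Ht evc)
open Pool.Agent.Y916.Af (NRh SZ Vc)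

variable {n : ℕ}

/-- the entries of the matrix -/
def hh (H : Matrix (Fin n) (Fin n) ℚ⟦X⟧) : Fin (n * n) → ℚ⟦X⟧ := fun a =>
  H (finProdFinEquiv.symm a).1 (finProdFinEquiv.symm a).2

/-- the values at `z` -/
noncomputable def Hz (H : Matrix (Fin n) (Fin n) ℚ⟦X⟧) (z : ℂ) : Matrix (Fin n) (Fin n) ℂ :=
  Matrix.of fun i j => evc z (H i j)

/-- **relations at one point** -/
theorem one_fibre {H : Matrix (Fin n) (Fin n) ℚ⟦X⟧} (hnr : NRh (hh H)) (hsz : SZ (hh H))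
    {S : Matrix (Fin n) (Fin n) ℂ} {N0 : ℕ}
    (hfib : ∀ ξ : ℂ, (N0 : ℝ) ≤ ‖ξ‖ → ∀ g, Pc S g →
      (fun i => (Hz H (1 / ξ) * gᵀ) (finProdFinEquiv.symm i).1 (finProdFinEquiv.symm i).2) ∈
        Vc (hh H) (1 / ξ)) (m A D d : ℕ) :
    ∃ E₀ : ℕ, N0 ≤ E₀ ∧ ∀ ξ : ℂ, (E₀ : ℝ) ≤ ‖ξ‖ → Ht m A ξ →
    ∀ K : IntermediateField ℚ ℂ, FiniteDimensional ℚ K → Module.finrank ℚ K ≤ D →
    ∀ P : MvPolynomial (Fin n × Fin n) K, P.totalDegree ≤ d →
    MvPolynomial.aeval (fun x => Hz H (1 / ξ) x.1 x.2) P = 0 →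
    ∀ g, Pc S g → MvPolynomial.aeval (fun x => (Hz H (1 / ξ) * gᵀ) x.1 x.2) P = 0 := by
  classical
  obtain ⟨G0, hG0, hwin⟩ := Pool.Agent.Y916.Af.winNs hnr hsz
  obtain ⟨δ₁, Ex, hE⟩ := hwin G0 le_rfl 0 Fin.elim0 0 1 m D d (A + 1)
  obtain ⟨B, hB⟩ := Pool.Agent.Y119.HA.ht_add m A G0
  obtain ⟨N₁, hN₁⟩ := exists_nat_ge B
  refine ⟨N₁ + 3 ^ Ex + G0 + 2 + N0, Nat.le_add_left _ _, fun ξ hξ hHt K hK hKD P hPd hP0 g hg => ?_⟩
  push_cast at hξ
  have hG0R : (0 : ℝ) ≤ G0 := Nat.cast_nonneg G0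
  have hN0R : (0 : ℝ) ≤ N₁ := Nat.cast_nonneg N₁
  have hN1R : (0 : ℝ) ≤ N0 := Nat.cast_nonneg N0
  have h3 : (0 : ℝ) ≤ 3 ^ Ex := by positivity
  have hHt' := hB ξ (by linarith) hHt
  have hbig : (((1 : ℕ) : ℝ) + 2) ^ Ex ≤ ‖ξ + G0‖ := by
    have h1 := norm_sub_norm_le ξ (-(G0 : ℂ))
    rw [norm_neg, Complex.norm_natCast, sub_neg_eq_add] at h1
    have h4 : (((1 : ℕ) : ℝ) + 2) ^ Ex = 3 ^ Ex := by norm_num
    rw [h4]
    linarith
  obtain ⟨S', hS', hmain⟩ := hE 1 (ξ + G0) hbig hHt' Fin.elim0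
  have hcard : S'.card = 0 := by
    have h1 : (S'.card : Cardinal) ≤ 0 := by
      refine hS'.trans (le_of_eq ?_)
      rw [Nat.cast_zero, add_zero]
      have h2 : IntermediateField.adjoin ℚ (Set.range (Fin.elim0 : Fin 0 → ℂ)) = ⊥ := by
        rw [IntermediateField.adjoin_eq_bot_iff]
        rintro _ ⟨i, -⟩
        exact i.elim0
      rw [h2]
      exact trdeg_eq_zero
    have h2 : (S'.card : Cardinal) = 0 := le_antisymm h1 bot_le
    exact_mod_cast h2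
  have hS0 : S' = ∅ := Finset.card_eq_zero.1 hcard
  subst hS0
  have hpt : ∀ u : Fin 1 → ℕ, u = (fun _ => 1) → (fun j : Fin 1 => (ξ + G0) - ((G0 * u j : ℕ) : ℂ)) = fun _ => ξ := by
    rintro u rfl
    funext j
    push_cast
    ring
  have hfib' := hfib ξ (by linarith)
  set e : Fin 1 × Fin (n * n) → Fin n × Fin n := fun a => finProdFinEquiv.symm a.2 with he
  have hm := hmain (fun _ => 1) (fun i j _ => Subsingleton.elim i j) (fun j => ⟨le_rfl, le_rfl, by simp⟩)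
    (Gpt S (Hz H (1 / ξ)) e) (Pool.Agent.Y916.Af.irrD_of_irr (gpt_irr S (Hz H (1 / ξ)) e) _) (by
      rw [hpt _ rfl]
      refine ⟨1, Pool.Agent.Y118.CM.Pc_one S, ?_⟩
      funext a
      rw [transpose_one, Matrix.mul_one]
      rfl) (by
      rintro y ⟨g', hg', rfl⟩ j
      have h5 : (ξ + G0) - ((G0 * 1 : ℕ) : ℂ) = ξ := by
        push_cast
        ring
      rw [h5]
      exact hfib' g' hg') K hK hKD
    (MvPolynomial.rename (fun x : Fin n × Fin n => (Sum.inr ((0 : Fin 1), finProdFinEquiv x) :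
      (Fin 0 ⊕ Fin 0) ⊕ Fin 1 × Fin (n * n))) P) ((MvPolynomial.totalDegree_rename_le _ _).trans hPd) (by
      rw [MvPolynomial.aeval_rename, ← hP0, hpt _ rfl]
      refine congrArg (fun z => MvPolynomial.aeval z P) (funext fun x => ?_)
      show evc (1 / ξ) (hh H (finProdFinEquiv x)) = _
      unfold hh
      rw [Equiv.symm_apply_apply]
      rfl) (fun a => (Hz H (1 / ξ) * gᵀ) (e a).1 (e a).2) ⟨g, hg, rfl⟩
  rw [MvPolynomial.aeval_rename] at hm
  rw [← hm]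
  refine congrArg (fun z => MvPolynomial.aeval z P) (funext fun x => ?_)
  show _ = (Hz H (1 / ξ) * gᵀ) (finProdFinEquiv.symm (finProdFinEquiv x)).1
    (finProdFinEquiv.symm (finProdFinEquiv x)).2
  rw [Equiv.symm_apply_apply]

end Pool.Agent.T2h17.CM
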