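import Pool.Agent.Y119.HA.Base
import Pool.Agent.Y916.Sl.Many

/-!
Algebraic integers of bounded degree and their conjugates.
-/

set_option autoImplicit false

namespace Pool.Agent.T2h17.CM

open Pool.Agent.Y916.Al (Ht)

/-- the largest conjugate of an algebraic integer has bounded height relative to its absolute value -/
theorem ht_conj {g : ℕ} {ξ ξ' : ℂ} (hint : IsIntegral ℤ ξ) (hdeg : (minpoly ℚ ξ).natDegree ≤ g)
    (hr : Polynomial.aeval ξ' (minpoly ℚ ξ) = 0) (hmax : ∀ z : ℂ, Polynomial.aeval z (minpoly ℚ ξ) = 0 → ‖z‖ ≤ ‖ξ'‖)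
    (h2 : 2 ≤ ‖ξ'‖) : Ht g (2 * g) ξ' := by
  have hmin : minpoly ℚ ξ = (minpoly ℤ ξ).map (algebraMap ℤ ℚ) := minpoly.isIntegrallyClosed_eq_field_fractions' ℚ hint
  have hmon : (minpoly ℤ ξ).Monic := minpoly.monic hint
  have hd : (minpoly ℤ ξ).natDegree = (minpoly ℚ ξ).natDegree := by
    rw [hmin, hmon.natDegree_map]
  have hev : ∀ z : ℂ, Polynomial.aeval z (minpoly ℚ ξ) = Polynomial.aeval z (minpoly ℤ ξ) := fun z => by
    rw [hmin, Polynomial.aeval_map_algebraMap]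
  refine ⟨minpoly ℤ ξ, hmon.ne_zero, by rw [hd]; exact hdeg, fun j => ?_, by rw [← hev]; exact hr⟩
  have h5 := Polynomial.coeff_le_of_roots_le (f := Int.castRingHom ℂ) (B := ‖ξ'‖) j hmon (IsAlgClosed.splits _)
    (fun z hz => hmax z (by
      rw [hev]
      have h6 := (Polynomial.mem_roots'.1 hz).2
      rw [Polynomial.IsRoot.def, Polynomial.eval_map] at h6
      exact h6))
  rw [Polynomial.coeff_map] at h5
  have h7 : ‖(Int.castRingHom ℂ) ((minpoly ℤ ξ).coeff j)‖ = |((minpoly ℤ ξ).coeff j : ℝ)| := by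
    rw [eq_intCast, Complex.norm_intCast]
  rw [h7] at h5
  have h1' : (1 : ℝ) ≤ ‖ξ'‖ := by linarith
  have hn : (minpoly ℤ ξ).natDegree ≤ g := by rw [hd]; exact hdeg
  have h8 : (((minpoly ℤ ξ).natDegree.choose j : ℕ) : ℝ) ≤ ‖ξ'‖ ^ g := by
    have h9 : (minpoly ℤ ξ).natDegree.choose j ≤ 2 ^ (minpoly ℤ ξ).natDegree := Nat.choose_le_two_pow _ _
    calc (((minpoly ℤ ξ).natDegree.choose j : ℕ) : ℝ) ≤ 2 ^ (minpoly ℤ ξ).natDegree := by exact_mod_cast h9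
      _ ≤ 2 ^ g := pow_le_pow_right₀ (by norm_num) hn
      _ ≤ ‖ξ'‖ ^ g := pow_le_pow_left₀ (by norm_num) h2 _
  calc |((minpoly ℤ ξ).coeff j : ℝ)| ≤ ‖ξ'‖ ^ ((minpoly ℤ ξ).natDegree - j) * ((minpoly ℤ ξ).natDegree.choose j : ℕ) := h5
    _ ≤ ‖ξ'‖ ^ g * ‖ξ'‖ ^ g := mul_le_mul (pow_le_pow_right₀ h1' (by omega)) h8 (Nat.cast_nonneg _) (by positivity)
    _ = ‖ξ'‖ ^ (2 * g) := by rw [← pow_add, two_mul]

/-- **all but finitely many algebraic integers of bounded degree have a conjugate which is large with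
respect to its height** -/
theorem finite_conj (g t0 : ℕ) (R : ℝ) (P : ℂ → Prop)
    (hP : ∀ ξ : ℂ, (t0 : ℝ) ≤ ‖ξ‖ → Ht g (2 * g) ξ → P ξ) :
    {ξ : ℂ | IsIntegral ℤ ξ ∧ (minpoly ℚ ξ).natDegree ≤ g ∧
      ∀ ξ' : ℂ, Polynomial.aeval ξ' (minpoly ℚ ξ) = 0 → R < ‖ξ'‖ → ¬ P ξ'}.Finite := by
  obtain ⟨t1, ht1⟩ := exists_nat_ge R
  refine (Pool.Agent.Y916.Sl.sint_fin g (t0 + t1 + 2)).subset ?_
  rintro ξ ⟨hint, hdeg, hall⟩
  refine ⟨hint, hdeg, ?_⟩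
  by_contra hcon
  push Not at hcon
  obtain ⟨z, hz, hzT⟩ := hcon
  have hQ : minpoly ℚ ξ ≠ 0 := minpoly.ne_zero (hint.tower_top)
  have hfin : {z : ℂ | Polynomial.aeval z (minpoly ℚ ξ) = 0}.Finite := by
    refine (Finset.finite_toSet ((minpoly ℚ ξ).map (algebraMap ℚ ℂ)).roots.toFinset).subset fun w hw => ?_
    rw [Finset.mem_coe, Multiset.mem_toFinset, Polynomial.mem_roots
      ((Polynomial.map_ne_zero_iff (algebraMap ℚ ℂ).injective).2 hQ), Polynomial.IsRoot.def,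
      Polynomial.eval_map]
    exact hw
  obtain ⟨ξ', hξ', hmax⟩ := Set.exists_max_image _ (fun w : ℂ => ‖w‖) hfin ⟨z, hz⟩
  have h1 : ((t0 + t1 + 2 : ℕ) : ℝ) < ‖ξ'‖ := lt_of_lt_of_le hzT (hmax z hz)
  push_cast at h1
  have h0 : (0 : ℝ) ≤ t0 := Nat.cast_nonneg t0
  have h0' : (0 : ℝ) ≤ t1 := Nat.cast_nonneg t1
  exact hall ξ' hξ' (by linarith) (hP ξ' (by linarith) (ht_conj hint hdeg hξ' (fun w hw => hmax w hw)
    (by linarith)))

end Pool.Agent.T2h17.CM
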