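import Mathlib

/-!
Pairs of isotropic vectors in a symplectic or quadratic space: every such pair is moved to every other
one by an isometry. The vectors are rows, the isometries act from the right.
-/

set_option autoImplicit false

open Matrix

namespace Pool.Agent.T2h17.CM

variable {n : ℕ}

/-- the pairing of rows -/
def br (S : Matrix (Fin n) (Fin n) ℂ) (v w : Fin n → ℂ) : ℂ := v ⬝ᵥ (S *ᵥ w)

section
variable {S : Matrix (Fin n) (Fin n) ℂ}

theorem br_add_left (u u' v : Fin n → ℂ) : br S (u + u') v = br S u v + br S u' v := by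
  unfold br
  rw [add_dotProduct]

theorem br_add_right (u v v' : Fin n → ℂ) : br S u (v + v') = br S u v + br S u v' := by
  unfold br
  rw [mulVec_add, dotProduct_add]

theorem br_sub_left (u u' v : Fin n → ℂ) : br S (u - u') v = br S u v - br S u' v := by
  unfold br
  rw [sub_dotProduct]

theorem br_sub_right (u v v' : Fin n → ℂ) : br S u (v - v') = br S u v - br S u v' := by
  unfold br
  rw [mulVec_sub, dotProduct_sub]

theorem br_smul_left (a : ℂ) (u v : Fin n → ℂ) : br S (a • u) v = a * br S u v := by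
  unfold br
  rw [smul_dotProduct, smul_eq_mul]

theorem br_smul_right (a : ℂ) (u v : Fin n → ℂ) : br S u (a • v) = a * br S u v := by
  unfold br
  rw [mulVec_smul, dotProduct_smul, smul_eq_mul]

theorem br_neg_left (u v : Fin n → ℂ) : br S (-u) v = -br S u v := by
  unfold br
  rw [neg_dotProduct]

theorem br_neg_right (u v : Fin n → ℂ) : br S u (-v) = -br S u v := by
  unfold br
  rw [mulVec_neg, dotProduct_neg]

theorem br_zero_left (v : Fin n → ℂ) : br S 0 v = 0 := by
  unfold br
  rw [zero_dotProduct]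

theorem br_single (i j : Fin n) (a b : ℂ) : br S (Pi.single i a) (Pi.single j b) = a * S i j * b := by
  unfold br
  rw [single_dotProduct, mulVec_single, Pi.smul_apply]
  simp [mul_assoc]

theorem br_symm {ε : ℂ} (hS : Sᵀ = ε • S) (u v : Fin n → ℂ) : br S v u = ε * br S u v := by
  unfold br
  have h1 : v ⬝ᵥ (S *ᵥ u) = u ⬝ᵥ (Sᵀ *ᵥ v) := by
    rw [mulVec_transpose, dotProduct_comm u, ← dotProduct_mulVec]
  rw [h1, hS, smul_mulVec, dotProduct_smul, smul_eq_mul]

theorem br_nondeg (hdet : S.det ≠ 0) {v : Fin n → ℂ} (hv : ∀ w, br S v w = 0) : v = 0 := by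
  have h1 : v ᵥ* S = 0 := by
    funext i
    have h2 := hv (Pi.single i 1)
    unfold br at h2
    rwa [dotProduct_mulVec, dotProduct_single_one] at h2
  have h2 : (v ᵥ* S) ᵥ* S⁻¹ = 0 := by rw [h1, zero_vecMul]
  rwa [vecMul_vecMul, mul_nonsing_inv _ (Ne.isUnit hdet), vecMul_one] at h2

/-- isometries -/
def Iso (S : Matrix (Fin n) (Fin n) ℂ) (x : Matrix (Fin n) (Fin n) ℂ) : Prop :=
  ∀ v w, br S (v ᵥ* x) (w ᵥ* x) = br S v w

theorem Iso.one : Iso S 1 := fun v w => by rw [vecMul_one, vecMul_one]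

theorem Iso.mul {x y : Matrix (Fin n) (Fin n) ℂ} (hx : Iso S x) (hy : Iso S y) : Iso S (x * y) := by
  intro v w
  rw [← vecMul_vecMul, ← vecMul_vecMul, hy, hx]

theorem Iso.neg {x : Matrix (Fin n) (Fin n) ℂ} (hx : Iso S x) : Iso S (-x) := by
  intro v w
  rw [vecMul_neg, vecMul_neg, br_neg_left, br_neg_right, neg_neg, hx]

theorem Iso.eq {x : Matrix (Fin n) (Fin n) ℂ} (hx : Iso S x) : x * S * xᵀ = S := by
  ext i j
  have h1 := hx (Pi.single i 1) (Pi.single j 1)
  rw [single_one_vecMul, single_one_vecMul, br_single, one_mul, mul_one] at h1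
  rw [← h1]
  unfold br
  rw [Matrix.mul_apply]
  show _ = ∑ k, x i k * (S *ᵥ x j) k
  simp only [Matrix.mul_apply, Matrix.transpose_apply, Matrix.mulVec, dotProduct, Finset.sum_mul,
    Finset.mul_sum]
  rw [Finset.sum_comm]
  refine Finset.sum_congr rfl fun k _ => Finset.sum_congr rfl fun l _ => ?_
  ring

/-- the operators of rank one -/
noncomputable def rk (S : Matrix (Fin n) (Fin n) ℂ) (c : ℂ) (d : Fin n → ℂ) : Matrix (Fin n) (Fin n) ℂ :=
  1 + c⁻¹ • vecMulVec (S *ᵥ d) d

theorem vecMul_rk (c : ℂ) (d w : Fin n → ℂ) : w ᵥ* rk S c d = w + (c⁻¹ * br S w d) • d := by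
  unfold rk br
  rw [vecMul_add, vecMul_one, vecMul_smul, vecMul_vecMulVec, smul_smul]

/-- **one step** -/
theorem hop {ε : ℂ} (hε : ε = 1 ∨ ε = -1) (hS : Sᵀ = ε • S) {u v : Fin n → ℂ}
    (hu : br S u u = 0) (hv : br S v v = 0) (huv : br S u v ≠ 0) :
    ∃ x, Iso S x ∧ u ᵥ* x = v ∧ ∀ z, br S z u = br S z v → z ᵥ* x = z := by
  set c := br S u v with hc
  set d := u - v with hd
  have hud : br S u d = -c := by rw [hd, br_sub_right, hu, zero_sub]
  have hvu : br S v u = ε * c := br_symm hS u v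
  have hdd : br S d d = -(1 + ε) * c := by
    rw [hd, br_sub_left, br_sub_right, br_sub_right, hu, hv, ← hc, hvu]
    ring
  refine ⟨rk S c d, fun w w' => ?_, ?_, fun z hz => ?_⟩
  · rw [vecMul_rk, vecMul_rk, br_add_left, br_add_right, br_add_right, br_smul_left, br_smul_right,
      br_smul_left, br_smul_right, hdd]
    have h1 : br S d w' = ε * br S w' d := br_symm hS w' d
    rw [h1]
    have h2 : ε * ε = 1 := by
      rcases hε with h | h <;> rw [h] <;> norm_num
    field_simp
    rcases hε with h | h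
    · rw [h]
      ring
    · rw [h]
      ring
  · rw [vecMul_rk, hud, mul_neg, inv_mul_cancel₀ huv, neg_one_smul, hd]
    abel
  · rw [vecMul_rk]
    have h1 : br S z d = 0 := by rw [hd, br_sub_right, hz, sub_self]
    rw [h1, mul_zero, zero_smul, add_zero]

/-- **two steps** -/
theorem two_hop {ε : ℂ} (hε : ε = 1 ∨ ε = -1) (hS : Sᵀ = ε • S) {u v z y : Fin n → ℂ}
    (hu : br S u u = 0) (hv : br S v v = 0) (hzu : br S z u = 0) (hzv : br S z v = 0)
    (hzy : br S z y = 0) (huy : br S u y ≠ 0) (hvy : br S v y ≠ 0) :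
    ∃ x, Iso S x ∧ u ᵥ* x = v ∧ z ᵥ* x = z := by
  by_cases huv : br S u v = 0
  · set α := -(br S y y) / (2 * br S u y) with hα
    set y' := y + α • u with hy'
    have hyu : br S y u = ε * br S u y := br_symm hS u y
    have h1 : br S y' y' = 0 := by
      rw [hy', br_add_left, br_add_right, br_add_right, br_smul_left, br_smul_right, br_smul_left,
        br_smul_right, hu, hyu]
      rcases hε with h | h
      · rw [h, hα]
        field_simp
        ring
      · have h2 : br S y y = 0 := by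
          have h3 := br_symm hS y y
          rw [h] at h3
          linear_combination (1 / 2 : ℂ) * h3
        rw [hα, h2, h]
        simp
    have h2 : br S u y' ≠ 0 := by
      rw [hy', br_add_right, br_smul_right, hu, mul_zero, add_zero]
      exact huy
    have h3 : br S y' v ≠ 0 := by
      rw [hy', br_add_left, br_smul_left, huv, mul_zero, add_zero, br_symm hS v y]
      refine mul_ne_zero ?_ hvy
      rcases hε with h | h <;> rw [h] <;> norm_num
    have h4 : br S z y' = 0 := by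
      rw [hy', br_add_right, br_smul_right, hzy, hzu, mul_zero, add_zero]
    obtain ⟨x1, i1, m1, f1⟩ := hop hε hS hu h1 h2
    obtain ⟨x2, i2, m2, f2⟩ := hop hε hS h1 hv h3
    refine ⟨x1 * x2, i1.mul i2, ?_, ?_⟩
    · rw [← vecMul_vecMul, m1, m2]
    · rw [← vecMul_vecMul, f1 z (by rw [hzu, h4]), f2 z (by rw [h4, hzv])]
  · obtain ⟨x, i, m, f⟩ := hop hε hS hu hv huv
    exact ⟨x, i, m, f z (by rw [hzu, hzv])⟩

/-- a vector which is not orthogonal to two given ones -/
theorem exists_y (hdet : S.det ≠ 0) {u v z : Fin n → ℂ} (hu : ∀ c : ℂ, u ≠ c • z)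
    (hv : ∀ c : ℂ, v ≠ c • z) : ∃ y, br S z y = 0 ∧ br S u y ≠ 0 ∧ br S v y ≠ 0 := by
  have key : ∀ u : Fin n → ℂ, (∀ c : ℂ, u ≠ c • z) → ∃ y, br S z y = 0 ∧ br S u y ≠ 0 := by
    intro u hu
    by_contra hcon
    push Not at hcon
    by_cases hz : ∀ w, br S z w = 0
    · apply hu 0
      rw [zero_smul]
      exact br_nondeg hdet fun w => hcon w (hz w)
    · push Not at hz
      obtain ⟨w0, hw0⟩ := hz
      apply hu (br S u w0 / br S z w0)
      have h1 : u - (br S u w0 / br S z w0) • z = 0 := by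
        refine br_nondeg hdet fun w => ?_
        have h2 := hcon (w - (br S z w / br S z w0) • w0) (by
          rw [br_sub_right, br_smul_right]
          field_simp
          ring)
        rw [br_sub_right, br_smul_right] at h2
        rw [br_sub_left, br_smul_left]
        have h3 : br S u w0 / br S z w0 * br S z w = br S z w / br S z w0 * br S u w0 := by ring
        rw [h3]
        exact h2
      exact sub_eq_zero.1 h1
  obtain ⟨y1, a1, b1⟩ := key u hu
  obtain ⟨y2, a2, b2⟩ := key v hv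
  by_cases h1 : br S v y1 = 0
  · by_cases h2 : br S u y2 = 0
    · refine ⟨y1 + y2, ?_, ?_, ?_⟩
      · rw [br_add_right, a1, a2, add_zero]
      · rw [br_add_right, h2, add_zero]
        exact b1
      · rw [br_add_right, h1, zero_add]
        exact b2
    · exact ⟨y2, a2, h2, b2⟩
  · exact ⟨y1, a1, b1, h1⟩

/-- **Witt's theorem for isotropic pairs.** -/
theorem witt_pair {ε : ℂ} (hε : ε = 1 ∨ ε = -1) (hS : Sᵀ = ε • S) (hdet : S.det ≠ 0)
    {a b v v' : Fin n → ℂ} (ha : a ≠ 0) (hb : ∀ c : ℂ, b ≠ c • a) (haa : br S a a = 0)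
    (hab : br S a b = 0) (hbb : br S b b = 0) (hv : v ≠ 0) (hv' : ∀ c : ℂ, v' ≠ c • v)
    (hvv : br S v v = 0) (hvv' : br S v v' = 0) (hv'v' : br S v' v' = 0) :
    ∃ x, Iso S x ∧ a ᵥ* x = v ∧ b ᵥ* x = v' := by
  obtain ⟨y, -, y2, y3⟩ := exists_y hdet (z := 0) (u := a) (v := v) (fun c => by rwa [smul_zero])
    (fun c => by rwa [smul_zero])
  obtain ⟨x1, i1, m1, -⟩ := two_hop hε hS haa hvv (br_zero_left a) (br_zero_left v)
    (br_zero_left y) y2 y3
  have hb1 : br S v (b ᵥ* x1) = 0 := by rw [← m1, i1, hab]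
  have hb2 : br S (b ᵥ* x1) (b ᵥ* x1) = 0 := by rw [i1, hbb]
  have hb3 : ∀ c : ℂ, b ᵥ* x1 ≠ c • v := by
    intro c hc
    apply hb c
    rw [← m1, ← smul_vecMul] at hc
    have h1 : (b - c • a) ᵥ* x1 = 0 := by rw [sub_vecMul, hc, sub_self]
    have h2 : b - c • a = 0 := by
      refine br_nondeg hdet fun w => ?_
      rw [← i1, h1, br_zero_left]
    exact sub_eq_zero.1 h2
  obtain ⟨y', z1, z2, z3⟩ := exists_y hdet hb3 hv'
  obtain ⟨x2, i2, m2, f2⟩ := two_hop hε hS hb2 hv'v' hb1 hvv' z1 z2 z3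
  exact ⟨x1 * x2, i1.mul i2, by rw [← vecMul_vecMul, m1, f2], by rw [← vecMul_vecMul, m2]⟩

end

end Pool.Agent.T2h17.CM
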