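import Pool.Agent.T2h17.CM.Form

/-!
A flag which is not defined over a small field, near a point with maximally unipotent monodromy.
-/

set_option autoImplicit false

open Matrix

namespace Pool.Agent.T2h17.CM

/-- the nilpotent matrix -/
def Nn (n : ℕ) : Matrix (Fin n) (Fin n) ℂ := Matrix.of fun i j => if (j : ℕ) = i + 1 then 1 else 0

theorem Nn_mul {n : ℕ} {ι : Type*} (X : Matrix (Fin n) ι ℂ) (i : Fin n) (j : ι) :
    (Nn n * X) i j = if h : (i : ℕ) + 1 < n then X ⟨i + 1, h⟩ j else 0 := by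
  rw [Matrix.mul_apply]
  unfold Nn
  split_ifs with h
  · rw [Finset.sum_eq_single (⟨i + 1, h⟩ : Fin n)]
    · simp
    · intro k _ hk
      rw [Matrix.of_apply, if_neg, zero_mul]
      intro h1
      exact hk (Fin.ext h1)
    · intro h1
      exact absurd (Finset.mem_univ _) h1
  · refine Finset.sum_eq_zero fun k _ => ?_
    rw [Matrix.of_apply, if_neg, zero_mul]
    intro h1
    exact h (h1 ▸ k.2)

theorem mul_Nn_transpose {n : ℕ} (X : Matrix (Fin n) (Fin n) ℂ) (i j : Fin n) :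
    (X * (Nn n)ᵀ) i j = if h : (j : ℕ) + 1 < n then X i ⟨j + 1, h⟩ else 0 := by
  rw [Matrix.mul_apply]
  simp only [Matrix.transpose_apply]
  unfold Nn
  split_ifs with h
  · rw [Finset.sum_eq_single (⟨j + 1, h⟩ : Fin n)]
    · simp
    · intro k _ hk
      rw [Matrix.of_apply, if_neg, mul_zero]
      intro h1
      exact hk (Fin.ext h1)
    · intro h1
      exact absurd (Finset.mem_univ _) h1
  · refine Finset.sum_eq_zero fun k _ => ?_
    rw [Matrix.of_apply, if_neg, mul_zero]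
    intro h1
    exact h (h1 ▸ k.2)

section
variable {q : ℕ} {S : Matrix (Fin (q + 4)) (Fin (q + 4)) ℂ}

/-- the entries of the first row -/
noncomputable def sg (S : Matrix (Fin (q + 4)) (Fin (q + 4)) ℂ) (k : ℕ) : ℂ :=
  if h : k < q + 4 then S 0 ⟨k, h⟩ else 0

theorem sg_big {k : ℕ} (h : q + 4 ≤ k) : sg S k = 0 := by
  unfold sg
  rw [dif_neg (by omega)]

theorem S_val (hN : Nn (q + 4) * S + S * (Nn (q + 4))ᵀ = 0) :
    ∀ (i : ℕ) (hi : i < q + 4) (j : Fin (q + 4)), S ⟨i, hi⟩ j = (-1) ^ i * sg S (i + j) := by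
  intro i
  induction i with
  | zero =>
    intro hi j
    unfold sg
    rw [zero_add, dif_pos j.2, pow_zero, one_mul]
    rfl
  | succ i ih =>
    intro hi j
    have h1 := congrFun (congrFun hN ⟨i, by omega⟩) j
    rw [Matrix.add_apply, Nn_mul, mul_Nn_transpose, Matrix.zero_apply, dif_pos hi] at h1
    by_cases hj : (j : ℕ) + 1 < q + 4
    · rw [dif_pos hj, ih (by omega) ⟨j + 1, hj⟩] at h1
      have h2 : i + ((⟨j + 1, hj⟩ : Fin (q + 4)) : ℕ) = i + 1 + j := by
        show i + (j + 1) = i + 1 + (j : ℕ)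
        omega
      rw [h2] at h1
      rw [pow_succ]
      linear_combination h1
    · rw [dif_neg hj, add_zero] at h1
      rw [sg_big (by omega), mul_zero]
      exact h1

theorem NS_val (hN : Nn (q + 4) * S + S * (Nn (q + 4))ᵀ = 0) (a : ℕ) :
    ∀ i j : Fin (q + 4), (Nn (q + 4) ^ a * S) i j = (-1) ^ ((i : ℕ) + a) * sg S (i + a + j) := by
  induction a with
  | zero =>
    intro i j
    rw [pow_zero, one_mul, add_zero]
    exact S_val hN i i.2 j
  | succ a ih =>
    intro i j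
    rw [pow_succ', Matrix.mul_assoc, Nn_mul]
    split_ifs with h
    · rw [ih]
      show (-1) ^ ((i : ℕ) + 1 + a) * sg S (i + 1 + a + j) = _
      have h1 : (i : ℕ) + 1 + a = i + (a + 1) := by omega
      rw [h1]
    · rw [sg_big (by omega), mul_zero]

/-- half of the entries are zero -/
theorem sg_parity (hN : Nn (q + 4) * S + S * (Nn (q + 4))ᵀ = 0) {ε : ℂ} (hε : ε = (-1) ^ (q + 3))
    (hS : Sᵀ = ε • S) : sg S (q + 2) = 0 := by
  have h1 := congrFun (congrFun hS 0) ⟨q + 2, by omega⟩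
  rw [Matrix.transpose_apply, Matrix.smul_apply, smul_eq_mul, S_val hN (q + 2) (by omega) 0] at h1
  have h2 : S 0 ⟨q + 2, by omega⟩ = sg S (q + 2) := by
    unfold sg
    rw [dif_pos (by omega)]
  rw [h2] at h1
  have h3 : q + 2 + ((0 : Fin (q + 4)) : ℕ) = q + 2 := rfl
  rw [h3, hε] at h1
  have h4 : ((-1 : ℂ)) ^ (q + 2) ≠ 0 := pow_ne_zero _ (by norm_num)
  have h5 : (-1 : ℂ) ^ (q + 3) = -(-1) ^ (q + 2) := by ring
  rw [h5] at h1
  have h6 : (-1 : ℂ) ^ (q + 2) * sg S (q + 2) = 0 := by linear_combination (1 / 2 : ℂ) * h1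
  exact (mul_eq_zero.1 h6).resolve_left h4

theorem sg_top (hN : Nn (q + 4) * S + S * (Nn (q + 4))ᵀ = 0) (hdet : S.det ≠ 0) :
    sg S (q + 3) ≠ 0 := by
  intro h0
  apply hdet
  refine Matrix.det_eq_zero_of_column_eq_zero ⟨q + 3, by omega⟩ fun i => ?_
  rw [S_val hN i i.2]
  show (-1) ^ (i : ℕ) * sg S (i + (q + 3)) = 0
  by_cases hi : (i : ℕ) = 0
  · rw [hi, zero_add, h0, mul_zero]
  · rw [sg_big (by omega), mul_zero]

/-- the first vector -/
noncomputable def vv (q : ℕ) (μ x : ℂ) : Fin (q + 4) → ℂ :=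
  Pi.single 0 1 + Pi.single 2 μ + Pi.single ⟨q + 3, by omega⟩ x

/-- the second vector -/
noncomputable def ww (q : ℕ) (ρ y z : ℂ) : Fin (q + 4) → ℂ :=
  Pi.single 1 1 + Pi.single 2 ρ + Pi.single ⟨q + 2, by omega⟩ y + Pi.single ⟨q + 3, by omega⟩ z

theorem val0 : ((0 : Fin (q + 4)) : ℕ) = 0 := rfl
theorem val1 : ((1 : Fin (q + 4)) : ℕ) = 1 := rfl
theorem val2 : ((2 : Fin (q + 4)) : ℕ) = 2 := rfl

theorem A1_val (hN : Nn (q + 4) * S + S * (Nn (q + 4))ᵀ = 0) (h2 : sg S (q + 2) = 0)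
    (i j : Fin (q + 4)) : (Nn (q + 4) ^ (q + 1) * S) i j =
      if (i : ℕ) + j = 0 then (-1) ^ (q + 1) * sg S (q + 1) else
      if (i : ℕ) + j = 2 then (-1) ^ ((i : ℕ) + (q + 1)) * sg S (q + 3) else 0 := by
  rw [NS_val hN]
  split_ifs with h h'
  · have h3 : (i : ℕ) = 0 := by omega
    have h4 : (j : ℕ) = 0 := by omega
    rw [h3, h4]
    simp
  · have h3 : (i : ℕ) + (q + 1) + j = q + 3 := by omega
    rw [h3]
  · by_cases h1 : (i : ℕ) + j = 1
    · have h3 : (i : ℕ) + (q + 1) + j = q + 2 := by omega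
      rw [h3, h2, mul_zero]
    · rw [sg_big (by omega), mul_zero]

theorem A2_val (hN : Nn (q + 4) * S + S * (Nn (q + 4))ᵀ = 0) (h2 : sg S (q + 2) = 0)
    (i j : Fin (q + 4)) : (Nn (q + 4) ^ (q + 2) * S) i j =
      if (i : ℕ) + j = 1 then (-1) ^ ((i : ℕ) + (q + 2)) * sg S (q + 3) else 0 := by
  rw [NS_val hN]
  split_ifs with h
  · have h3 : (i : ℕ) + (q + 2) + j = q + 3 := by omega
    rw [h3]
  · by_cases h1 : (i : ℕ) + j = 0
    · have h3 : (i : ℕ) + (q + 2) + j = q + 2 := by omega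
      rw [h3, h2, mul_zero]
    · rw [sg_big (by omega), mul_zero]

theorem A3_val (hN : Nn (q + 4) * S + S * (Nn (q + 4))ᵀ = 0) (i j : Fin (q + 4)) :
    (Nn (q + 4) ^ (q + 3) * S) i j = if (i : ℕ) + j = 0 then (-1) ^ (q + 3) * sg S (q + 3) else 0 := by
  rw [NS_val hN]
  split_ifs with h
  · have h3 : (i : ℕ) = 0 := by omega
    have h4 : (j : ℕ) = 0 := by omega
    rw [h3, h4]
    simp
  · rw [sg_big (by omega), mul_zero]

theorem S_entries (hN : Nn (q + 4) * S + S * (Nn (q + 4))ᵀ = 0) (i j : Fin (q + 4)) :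
    S i j = (-1) ^ (i : ℕ) * sg S (i + j) := S_val hN i i.2 j

/-- **the good pair** -/
theorem good_pair {ε : ℂ} (hε : ε = (-1) ^ (q + 3)) (hS : Sᵀ = ε • S) (hdet : S.det ≠ 0)
    (hN : Nn (q + 4) * S + S * (Nn (q + 4))ᵀ = 0) (β : ℂ) :
    ∃ v v' : Fin (q + 4) → ℂ, br S v v = 0 ∧ br S v v' = 0 ∧ br S v' v' = 0 ∧
      br (Nn (q + 4) ^ (q + 2) * S) v v' ≠ 0 ∧ br (Nn (q + 4) ^ (q + 1) * S) v v ≠ 0 ∧
      br (Nn (q + 4) ^ (q + 3) * S) v v ≠ 0 ∧
      br (Nn (q + 4) ^ (q + 1) * S) v v * br (Nn (q + 4) ^ (q + 1) * S) v' v' -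
        br (Nn (q + 4) ^ (q + 1) * S) v v' * br (Nn (q + 4) ^ (q + 1) * S) v' v ≠ 0 ∧
      (br (Nn (q + 4) ^ (q + 1) * S) v v * br (Nn (q + 4) ^ (q + 1) * S) v' v' -
        br (Nn (q + 4) ^ (q + 1) * S) v v' * br (Nn (q + 4) ^ (q + 1) * S) v' v) *
        br (Nn (q + 4) ^ (q + 3) * S) v v ≠
      β * (br (Nn (q + 4) ^ (q + 2) * S) v v' ^ 2 * br (Nn (q + 4) ^ (q + 1) * S) v v) := by
  have h2 := sg_parity hN hε hS
  have h3 := sg_top hN hdet
  set σ := sg S (q + 3) with hσ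
  set τ := sg S (q + 1) with hτ
  set s : ℂ := (-1) ^ q with hs
  have hss : s * s = 1 := by
    rw [hs, ← pow_add, ← two_mul, pow_mul]
    norm_num
  have hs0 : s ≠ 0 := by
    intro h
    rw [h, zero_mul] at hss
    exact zero_ne_one hss
  have hεs : ε = -s := by
    rw [hε, hs]
    ring
  -- the values
  have a1 : ∀ μ x : ℂ, br (Nn (q + 4) ^ (q + 1) * S) (vv q μ x) (vv q μ x) = -s * (τ + 2 * σ * μ) := by
    intro μ x
    unfold vv
    simp only [br_add_left, br_add_right, br_single, A1_val hN h2, val0, val2]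
    simp only [← hσ, ← hτ]
    simp only [pow_add, ← hs]
    norm_num
    split_ifs <;> first | omega | ring
  have a3 : ∀ μ x : ℂ, br (Nn (q + 4) ^ (q + 3) * S) (vv q μ x) (vv q μ x) = -s * σ := by
    intro μ x
    unfold vv
    simp only [br_add_left, br_add_right, br_single, A3_val hN, val0, val2]
    simp only [← hσ]
    simp only [pow_add, ← hs]
    norm_num
  have a2 : ∀ μ x ρ y z : ℂ, br (Nn (q + 4) ^ (q + 2) * S) (vv q μ x) (ww q ρ y z) = s * σ := by
    intro μ x ρ y z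
    unfold vv ww
    simp only [br_add_left, br_add_right, br_single, A2_val hN h2, val0, val1, val2]
    simp only [← hσ]
    simp only [pow_add, ← hs]
    norm_num
    try split_ifs <;> first | omega | ring
  have a4 : ∀ μ x ρ y z : ℂ, (q = 0 → y = 0) →
      br (Nn (q + 4) ^ (q + 1) * S) (vv q μ x) (ww q ρ y z) = -s * σ * ρ := by
    intro μ x ρ y z hy
    unfold vv ww
    simp only [br_add_left, br_add_right, br_single, A1_val hN h2, val0, val1, val2]
    simp only [← hσ, ← hτ]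
    simp only [pow_add, ← hs]
    norm_num
    split_ifs with g1 g2 g3 g4 g5 <;> first | omega | (rw [hy (by omega)]; ring) | ring
  have a5 : ∀ μ x ρ y z : ℂ, (q = 0 → y = 0) →
      br (Nn (q + 4) ^ (q + 1) * S) (ww q ρ y z) (vv q μ x) = -s * σ * ρ := by
    intro μ x ρ y z hy
    unfold vv ww
    simp only [br_add_left, br_add_right, br_single, A1_val hN h2, val0, val1, val2]
    simp only [← hσ, ← hτ]
    simp only [pow_add, ← hs]
    norm_num
    split_ifs with g1 g2 g3 g4 g5 <;> first | omega | (rw [hy (by omega)]; ring) | ring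
  have a6 : ∀ ρ y z : ℂ,
      br (Nn (q + 4) ^ (q + 1) * S) (ww q ρ y z) (ww q ρ y z) = s * σ := by
    intro ρ y z
    unfold ww
    simp only [br_add_left, br_add_right, br_single, A1_val hN h2, val1, val2]
    simp only [← hσ, ← hτ]
    simp only [pow_add, ← hs]
    norm_num
    try split_ifs with g1 g2 g3 g4 g5 <;> first | omega | ring
  have b1 : ∀ μ x : ℂ, br S (vv q μ x) (vv q μ x) = br S (vv q μ 0) (vv q μ 0) + x * (1 - s) * σ := by
    intro μ x
    unfold vv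
    simp only [br_add_left, br_add_right, br_single, S_entries hN, val0, val2, zero_add, add_zero]
    simp (disch := omega) only [sg_big, ← hσ]
    simp only [pow_add, ← hs]
    ring
  have b2 : ∀ μ x ρ y z : ℂ, br S (vv q μ x) (ww q ρ y z) = br S (vv q μ x) (ww q ρ y 0) + z * σ := by
    intro μ x ρ y z
    unfold vv ww
    simp only [br_add_left, br_add_right, br_single, S_entries hN, val0, val1, val2, zero_add, add_zero]
    simp (disch := omega) only [sg_big, ← hσ]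
    ring
  have b3 : ∀ ρ y z : ℂ, br S (ww q ρ y z) (ww q ρ y z) = br S (ww q ρ 0 0) (ww q ρ 0 0) +
      y * (s - 1) * σ := by
    intro ρ y z
    unfold ww
    have e1 : 1 + (q + 2) = q + 3 := by omega
    have e2 : q + 2 + 1 = q + 3 := rfl
    simp only [br_add_left, br_add_right, br_single, S_entries hN, val1, val2, e1, e2]
    simp (disch := omega) only [sg_big, ← hσ]
    simp only [pow_add, ← hs]
    ring
  have two : (2 : ℂ) * σ ≠ 0 := mul_ne_zero two_ne_zero h3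
  obtain ⟨ρ, hρ, hρ'⟩ : ∃ ρ : ℂ, (1 + β) * 1 + σ * ρ ^ 2 ≠ 0 ∧ 1 + σ * ρ ^ 2 ≠ 0 := by
    by_contra hcon
    push Not at hcon
    have c0 : 1 + β = 0 := by
      by_contra h
      have h1 := hcon 0 (by simpa using h)
      simp at h1
    have c1 : 1 + σ = 0 := by
      have h1 := hcon 1 (by rw [c0, zero_mul, zero_add, one_pow, mul_one]; exact h3)
      simpa using h1
    have c2 : 1 + σ * 2 ^ 2 = 0 := by
      refine hcon 2 ?_
      rw [c0, zero_mul, zero_add]
      exact mul_ne_zero h3 (by norm_num)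
    have c3 : (3 : ℂ) = 0 := by linear_combination 4 * c1 - c2
    norm_num at c3
  set μ := (1 - τ) / (2 * σ) with hμ
  have hla : τ + 2 * σ * μ = 1 := by
    rw [hμ]
    field_simp
    ring
  have key : ∀ x y z : ℂ, (q = 0 → y = 0) →
      br (Nn (q + 4) ^ (q + 2) * S) (vv q μ x) (ww q ρ y z) ≠ 0 ∧
      br (Nn (q + 4) ^ (q + 1) * S) (vv q μ x) (vv q μ x) ≠ 0 ∧
      br (Nn (q + 4) ^ (q + 3) * S) (vv q μ x) (vv q μ x) ≠ 0 ∧
      br (Nn (q + 4) ^ (q + 1) * S) (vv q μ x) (vv q μ x) *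
        br (Nn (q + 4) ^ (q + 1) * S) (ww q ρ y z) (ww q ρ y z) -
        br (Nn (q + 4) ^ (q + 1) * S) (vv q μ x) (ww q ρ y z) *
        br (Nn (q + 4) ^ (q + 1) * S) (ww q ρ y z) (vv q μ x) ≠ 0 ∧
      (br (Nn (q + 4) ^ (q + 1) * S) (vv q μ x) (vv q μ x) *
        br (Nn (q + 4) ^ (q + 1) * S) (ww q ρ y z) (ww q ρ y z) -
        br (Nn (q + 4) ^ (q + 1) * S) (vv q μ x) (ww q ρ y z) *
        br (Nn (q + 4) ^ (q + 1) * S) (ww q ρ y z) (vv q μ x)) *
        br (Nn (q + 4) ^ (q + 3) * S) (vv q μ x) (vv q μ x) ≠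
      β * (br (Nn (q + 4) ^ (q + 2) * S) (vv q μ x) (ww q ρ y z) ^ 2 *
        br (Nn (q + 4) ^ (q + 1) * S) (vv q μ x) (vv q μ x)) := by
    intro x y z hy
    rw [a1, a2, a3, a4 _ _ _ _ _ hy, a5 _ _ _ _ _ hy, a6, hla]
    refine ⟨mul_ne_zero hs0 h3, ?_, mul_ne_zero (neg_ne_zero.2 hs0) h3, fun h => hρ' ?_,
      fun h => hρ ?_⟩
    · rw [mul_one]
      exact neg_ne_zero.2 hs0
    · have h5 : σ * (1 + σ * ρ ^ 2) = 0 := by
        linear_combination -h - σ * (1 + σ * ρ ^ 2) * hss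
      exact (mul_eq_zero.1 h5).resolve_left h3
    · have h5 : s * σ ^ 2 * ((1 + β) * 1 + σ * ρ ^ 2) = 0 := by
        linear_combination h - s * σ ^ 2 * ((1 + β) * 1 + σ * ρ ^ 2) * hss
      exact (mul_eq_zero.1 h5).resolve_left (mul_ne_zero hs0 (pow_ne_zero 2 h3))
  rcases Nat.even_or_odd q with hq | hq
  · have hs1 : s = 1 := by rw [hs, hq.neg_one_pow]
    have hskew : ∀ v : Fin (q + 4) → ℂ, br S v v = 0 := by
      intro v
      have h4 := br_symm hS v v
      rw [hεs, hs1] at h4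
      linear_combination (1 / 2 : ℂ) * h4
    refine ⟨vv q μ 0, ww q ρ 0 (-(br S (vv q μ 0) (ww q ρ 0 0)) / σ), hskew _, ?_, hskew _,
      key _ _ _ fun _ => rfl⟩
    rw [b2]
    field_simp
    ring
  · have hs1 : s = -1 := by rw [hs, hq.neg_one_pow]
    have hq0 : q ≠ 0 := by
      rintro rfl
      exact absurd hq (by decide)
    set x := -(br S (vv q μ 0) (vv q μ 0)) / (2 * σ) with hx
    set y := (br S (ww q ρ 0 0) (ww q ρ 0 0)) / (2 * σ) with hy
    refine ⟨vv q μ x, ww q ρ y (-(br S (vv q μ x) (ww q ρ y 0)) / σ), ?_, ?_, ?_,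
      key _ _ _ fun h => absurd h hq0⟩
    · rw [b1, hs1, hx]
      field_simp
      ring
    · rw [b2]
      field_simp
      ring
    · rw [b3, hs1, hy]
      field_simp
      ring

end

end Pool.Agent.T2h17.CM
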