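import Pool.Agent.T2h17.CM.Inv
import Pool.Agent.Y118.CM.Sp
import Pool.Agent.Y123.GN.E6

/-!
The isometry groups of alternating and symmetric forms: polynomial paths, irreducibility.
-/

set_option autoImplicit false
set_option maxHeartbeats 400000

open Matrix Polynomial

namespace Pool.Agent.T2h17.CM

open Pool.Agent.Y118.CM (Pc Pc_one Pc_mul map_mul' map_one')
open Pool.Agent.Y123.GN (bf ro ss ss_exp ss_iso ss_nil so_gen)

variable {n : ℕ}

/-- the points of a path -/
theorem Pc_eval {J : Matrix (Fin n) (Fin n) ℂ} {M : Matrix (Fin n) (Fin n) ℂ[X]}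
    (h0 : M.map (eval 0) = 1) (h : ∀ c, (M.map (eval c))ᵀ * J * M.map (eval c) = J) (c : ℂ) :
    Pc J (M.map (eval c)) := by
  have h1 : ∀ t : ℂ, (M.map fun p => p.comp (C c * X)).map (eval t) = M.map (eval (c * t)) := by
    intro t
    ext i j
    rw [Matrix.map_apply, Matrix.map_apply, Matrix.map_apply, eval_comp]
    congr 1
    rw [eval_mul, eval_C, eval_X]
  refine ⟨M.map fun p => p.comp (C c * X), ?_, ?_, fun t => ?_⟩
  · rw [h1, mul_zero, h0]
  · rw [h1, mul_one]
  · rw [h1]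
    exact h _

theorem Pc_iso {J g : Matrix (Fin n) (Fin n) ℂ} (hg : Pc J g) : gᵀ * J * g = J := by
  obtain ⟨M, -, h1, h2⟩ := hg
  rw [← h1]
  exact h2 1

theorem map_det' (M : Matrix (Fin n) (Fin n) ℂ[X]) (c : ℂ) : (M.map (eval c)).det = M.det.eval c := by
  have h := (evalRingHom c).map_det M
  rw [RingHom.mapMatrix_apply] at h
  exact h.symm

theorem Pc_det {J g : Matrix (Fin n) (Fin n) ℂ} (hJ : J.det ≠ 0) (hg : Pc J g) : g.det = 1 := by
  obtain ⟨M, h0, h1, h2⟩ := hg
  have h3 : M.det * M.det = 1 := by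
    refine Polynomial.funext fun c => ?_
    rw [eval_mul, eval_one, ← map_det']
    have h4 := congrArg Matrix.det (h2 c)
    rw [det_mul, det_mul, det_transpose] at h4
    have h5 : ((M.map (eval c)).det * (M.map (eval c)).det - 1) * J.det = 0 := by
      linear_combination h4
    exact sub_eq_zero.1 ((mul_eq_zero.1 h5).resolve_right hJ)
  have h4 : IsUnit M.det := IsUnit.of_mul_eq_one _ h3
  obtain ⟨r, -, hr⟩ := Polynomial.isUnit_iff.1 h4
  have h5 : ∀ c : ℂ, (M.map (eval c)).det = r := fun c => by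
    rw [map_det', ← hr, eval_C]
  rw [← h1, h5 1, ← h5 0, h0, det_one]

/-- the elements of determinant one of the orthogonal group -/
theorem Pc_so (hn : 3 ≤ n) {J : Matrix (Fin n) (Fin n) ℂ} (hJ : Jᵀ = J) (hdet : J.det ≠ 0)
    {g : Matrix (Fin n) (Fin n) ℂ} (hg : gᵀ * J * g = J) (hd : g.det = 1) : Pc J g := by
  have key : ∀ g ∈ Submonoid.closure {x : Matrix (Fin n) (Fin n) ℂ | ∃ N ∈ ss J, x = IsNilpotent.exp N},
      Pc J g := by
    intro g hg
    induction hg using Submonoid.closure_induction with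
    | mem x hx =>
      obtain ⟨N, ⟨x, a, t, hx, hxa, haa, rfl⟩, rfl⟩ := hx
      set M : Matrix (Fin n) (Fin n) ℂ[X] := 1 + (C t * X : ℂ[X]) • (ro J x a - ro J a x).map C -
        (C (t * t / 2) * X ^ 2 : ℂ[X]) • (ro J x x).map C with hM
      have hMe : ∀ c : ℂ, M.map (eval c) = IsNilpotent.exp ((t * c) • (ro J x a - ro J a x)) := by
        intro c
        rw [ss_exp hJ hx hxa haa]
        ext l k
        rw [hM]
        simp only [Matrix.map_apply, Matrix.add_apply, Matrix.sub_apply, Matrix.smul_apply, smul_eq_mul,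
          eval_add, eval_sub, eval_mul, eval_pow, eval_X, eval_C]
        have h2 : eval c ((1 : Matrix (Fin n) (Fin n) ℂ[X]) l k) =
            (1 : Matrix (Fin n) (Fin n) ℂ) l k := by
          rw [Matrix.one_apply, Matrix.one_apply]
          split_ifs <;> simp
        rw [h2]
        ring
      refine ⟨M, ?_, ?_, fun c => ?_⟩
      · rw [hMe, mul_zero, ss_exp hJ hx hxa haa]
        simp
      · rw [hMe, mul_one]
      · rw [hMe]
        exact ss_iso hJ hx hxa haa _
    | one => exact Pc_one J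
    | mul x y _ _ hx hy => exact Pc_mul hx hy
  exact key g (so_gen hn hJ hdet hg hd)

/-- the points of the group, in a frame -/
def Gpt {ι : Type} (S D : Matrix (Fin n) (Fin n) ℂ) (e : ι → Fin n × Fin n) : Set (ι → ℂ) :=
  {y | ∃ g : Matrix (Fin n) (Fin n) ℂ, Pc S g ∧ y = fun a => (D * gᵀ) (e a).1 (e a).2}

/-- **irreducibility** -/
theorem gpt_irr {ι : Type} (S D : Matrix (Fin n) (Fin n) ℂ) (e : ι → Fin n × Fin n) :
    Pool.Agent.Y118.UL.Irr (Gpt S D e) := by
  intro P Q h
  by_contra hcon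
  push Not at hcon
  obtain ⟨⟨_, ⟨g1, hg1, rfl⟩, h1⟩, ⟨_, ⟨g2, hg2, rfl⟩, h2⟩⟩ := hcon
  obtain ⟨M1, a0, a1, a2⟩ := hg1
  obtain ⟨M2, b0, b1, b2⟩ := hg2
  -- the path from `g1` to `g2`
  set M1' : Matrix (Fin n) (Fin n) ℂ[X] := M1.map fun p => p.comp (1 - X) with hM1'
  have hM1e : ∀ c : ℂ, M1'.map (eval c) = M1.map (eval (1 - c)) := by
    intro c
    ext i j
    rw [hM1', Matrix.map_apply, Matrix.map_apply, Matrix.map_apply, eval_comp]
    congr 1
    rw [eval_sub, eval_one, eval_X]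
  set N : Matrix (Fin n) (Fin n) ℂ[X] := D.map C * (M1' * M2)ᵀ with hN
  have hCe : ∀ c : ℂ, (D.map C).map (eval c) = D := by
    intro c
    ext i j
    rw [Matrix.map_apply, Matrix.map_apply, eval_C]
  have hNe : ∀ c, N.map (eval c) = D * (M1.map (eval (1 - c)) * M2.map (eval c))ᵀ := by
    intro c
    rw [hN, map_mul', hCe, Matrix.transpose_map, map_mul', hM1e]
  have hPc : ∀ c, Pc S (M1.map (eval (1 - c)) * M2.map (eval c)) := fun c =>
    Pc_mul (Pc_eval a0 a2 _) (Pc_eval b0 b2 _)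
  have hev : ∀ (R : MvPolynomial ι ℂ) (c : ℂ), Polynomial.eval c (MvPolynomial.aeval (fun a => N (e a).1 (e a).2) R) =
      MvPolynomial.eval (fun a => (D * (M1.map (eval (1 - c)) * M2.map (eval c))ᵀ) (e a).1 (e a).2) R := by
    intro R c
    have h3 : (Polynomial.aeval c : Polynomial ℂ →ₐ[ℂ] ℂ).comp (MvPolynomial.aeval (fun a => N (e a).1 (e a).2)) =
        MvPolynomial.aeval (fun a => (D * (M1.map (eval (1 - c)) * M2.map (eval c))ᵀ) (e a).1 (e a).2) := by
      refine MvPolynomial.algHom_ext fun a => ?_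
      rw [AlgHom.comp_apply, MvPolynomial.aeval_X, MvPolynomial.aeval_X, ← hNe]
      rfl
    exact DFunLike.congr_fun h3 R
  set p := MvPolynomial.aeval (fun a => N (e a).1 (e a).2) P with hp
  set q := MvPolynomial.aeval (fun a => N (e a).1 (e a).2) Q with hq
  have hp0 : p ≠ 0 := by
    intro h0
    apply h1
    have h3 := hev P 0
    rw [← hp, h0, Polynomial.eval_zero, sub_zero, a1, b0, mul_one] at h3
    exact h3.symm
  have hq0 : q ≠ 0 := by
    intro h0
    apply h2
    have h3 := hev Q 1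
    rw [← hq, h0, Polynomial.eval_zero, sub_self, a0, b1, one_mul] at h3
    exact h3.symm
  obtain ⟨s, hs⟩ := Infinite.exists_notMem_finset (p * q).roots.toFinset
  have h3 : (p * q).eval s ≠ 0 := by
    intro h3
    exact hs (Multiset.mem_toFinset.2 ((Polynomial.mem_roots (mul_ne_zero hp0 hq0)).2 h3))
  rw [Polynomial.eval_mul, hev, hev] at h3
  exact h3 (h _ ⟨_, hPc s, rfl⟩)

/-- the transposed group elements are isometries for rows -/
theorem iso_transpose {S x : Matrix (Fin n) (Fin n) ℂ} (hx : Iso S x) :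
    (xᵀ)ᵀ * S * xᵀ = S := by
  rw [transpose_transpose]
  exact hx.eq

end Pool.Agent.T2h17.CM
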