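import Pool.Agent.T2h17.CM.Good

/-!
Pairings of vectors over number fields.
-/

set_option autoImplicit false

open Matrix

namespace Pool.Agent.T2h17.CM

section
variable {n : ℕ}

/-- rational matrices as complex matrices -/
def toC (M : Matrix (Fin n) (Fin n) ℚ) : Matrix (Fin n) (Fin n) ℂ := M.map fun x : ℚ => (x : ℂ)

theorem toC_mul (A B : Matrix (Fin n) (Fin n) ℚ) : toC (A * B) = toC A * toC B := by
  unfold toC
  have h := Matrix.map_mul (L := A) (M := B) (f := Rat.castHom ℂ)
  exact h

theorem toC_one : toC (1 : Matrix (Fin n) (Fin n) ℚ) = 1 := by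
  unfold toC
  exact Matrix.map_one _ Rat.cast_zero Rat.cast_one

theorem toC_pow (A : Matrix (Fin n) (Fin n) ℚ) (k : ℕ) : toC (A ^ k) = toC A ^ k := by
  induction k with
  | zero => rw [pow_zero, pow_zero, toC_one]
  | succ k ih => rw [pow_succ, pow_succ, toC_mul, ih]

/-- the pairing of vectors over `K` -/
noncomputable def pk (K : IntermediateField ℚ ℂ) (R : Matrix (Fin n) (Fin n) ℚ) (x y : Fin n → K) : K :=
  ∑ i, x i * ∑ j, algebraMap ℚ K (R i j) * y j

theorem br_pk (K : IntermediateField ℚ ℂ) (R : Matrix (Fin n) (Fin n) ℚ) (x y : Fin n → K) :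
    br (toC R) (fun i => (x i : ℂ)) (fun i => (y i : ℂ)) = (pk K R x y : ℂ) := by
  unfold br pk toC
  rw [← IntermediateField.coe_val, map_sum]
  show ∑ i, ((x i : K) : ℂ) * ∑ j, _ * _ = _
  refine Finset.sum_congr rfl fun i _ => ?_
  rw [map_mul, map_sum]
  congr 1

end

end Pool.Agent.T2h17.CM
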